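import Pool.Agent.H34.OPM.InpI
import Pool.Agent.H34.OPM.CmpI
import Pool.Agent.H18.OPM.Basis

set_option autoImplicit false
set_option linter.unusedSectionVars false

/-!
# The step of the main induction

`step_of` : from the end statement of part (T) (the comparison `Cmp`, the input `InpK` and the shape
statement give exactness at `K = 2 d`, `p ≤ 3 d - 3`) and the shape theorem, the statement `Step d`.
-/

open MvPolynomial

namespace Pool.Agent.H40.OP

open Pool.Agent.H27.OP Pool.Agent.H20.OPF Pool.Agent.H34.OPM Pool.Agent.H80.OP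

/-- the step, from part (T) (`hT`) and part (S) (`hS`) in the monomial basis -/
theorem step_of {d : ℕ} (hd : 2 ≤ d)
    (hT : ∀ (N r e : ℕ) (B : Bs (Fin (r + 1)) ℂ N (e + 1))
      (K : BiK ℂ (Finset (Fin N) → MvPolynomial (Fin (r + 1)) ℂ) e) (p : ℕ),
      Pool.Agent.H12.OP.Cmp (SK B) (AK B) 0 K → InpK K p →
      ShapeStatement (AK B) (0 : Fin (r + 1)) → 1 ≤ e → p ≤ 3 * e →
      ∀ w ∈ (AK B).G p (2 * e + 2), (SK B).del w = 0 → w ∈ LinearMap.range (SK B).del)
    (hS : ∀ (N r : ℕ) (B : Bs (Fin (r + 1)) ℂ N d), ShapeStatement (AK B) (0 : Fin (r + 1))) :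
    Step d := by
  intro h1 r h2 p hp
  obtain ⟨e, rfl⟩ : ∃ e, d = e + 1 := ⟨d - 1, by omega⟩
  rw [Nat.add_sub_cancel] at h1
  obtain ⟨N, en, hin, him⟩ := exists_enum (Fin (r + 1)) (e + 1)
  have hdeg : ∀ i, (en i).degree = e + 1 := fun i => mem_Mo.mp ((him _).mpr ⟨i, rfl⟩)
  refine Pool.Agent.H18.OPM.exact_of_one (mbs (k := ℂ) en hin him) fun κ hκ hz => ?_
  exact hT N r e _ (bik en hdeg) p (cmpI en hdeg hin him)
    (inpI en hdeg hin him (by omega) h1 h2 (by omega)) (hS N r _) (by omega) (by omega) κ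
    (by rw [show 2 * e + 2 = 2 * (e + 1) by ring]; exact hκ) hz

end Pool.Agent.H40.OP
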