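import Pool.Agent.H80.OP.Rec
import Pool.Agent.H40.OPR.Rec

set_option autoImplicit false

/-!
# Ottaviani-Paoletti: Theorem 1, Theorem 2 (a), (b) and lifting on helper80's structure `BiK`

Everything is transported from `Pool.Agent.H40.OPR.Rec` by the adapter `toBi`.

* `InpK K p` : exactness hypotheses (`F(d-1)` on `U` and `Q`, `F(d)` on `Q` for less than `p`
  letters and twist `> 2 d`, elementary vanishing on `Q`); `d = e + 1`.
* `InpK.thm1` : Theorem 1 for `k = 0`: cycles in `FS 1 p (2 d)` are boundaries.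
* `InpK.reduce` : Theorem 2 (a).
* `InpK.topbd` : Theorem 2 (b).
* `InpK.lift` : lifting (L).
-/

namespace Pool.Agent.H40.OP

open Pool.Agent.H80.OP Pool.Agent.H40.OPR

variable {k F : Type*} [Field k] [AddCommGroup F] [Module k F] {e : ℕ}

/-- adapter -/
def toBi (K : BiK k F e) : Bi k F e where
  G := K.G
  dS := K.dS
  dA := K.dA
  cc := K.c
  dS_mem := K.dS_mem
  dS_zero := K.dS_zero
  dA_mem := K.dA_mem
  dA_zero := K.dA_zero
  cc_mem := K.c_mem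
  cc_strict := by
    intro a b m x hx
    obtain ⟨y, hy, h⟩ := K.rho_dv hx (K.rho_c x)
    have h2 : y = x := by
      have h3 : K.c (y - x) = 0 := by rw [map_sub, h, sub_self]
      exact sub_eq_zero.mp (K.c_inj _ h3)
    rwa [← h2]
  cc_inj := by
    intro x hx
    exact K.c_inj x hx
  dSS := K.dSdS
  dAA := K.dAdA
  dAS := by
    intro x
    rw [K.anti, neg_neg]
  dSc := K.c_dS
  dAc := K.c_dA
  ind := by
    intro s p m x y hx hy h
    have h2 : K.pr s y = 0 := by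
      have h4 : (⨆ (a : ℕ) (b : ℕ) (_ : a < s ∧ a + b = p), K.G a b m) ≤ LinearMap.ker (K.pr s) := by
        refine iSup_le fun a => iSup_le fun b => iSup_le fun hab z hz => ?_
        rw [LinearMap.mem_ker]
        exact K.pr_other (by omega) hz
      exact LinearMap.mem_ker.mp (h4 hy)
    have h1 := congrArg (K.pr s) h
    rwa [map_add, K.pr_same hx, h2, add_zero, map_zero] at h1

variable (K : BiK k F e)

lemma toBi_D (x : F) : (toBi K).D x = K.D x := rfl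

lemma FL_le_FS {s p m : ℕ} : (toBi K).FL (s + 1) p m ≤ K.FS s p m :=
  iSup_le fun _ => iSup_le fun _ => iSup_le fun hab =>
    K.G_le_FS (Nat.lt_succ_iff.mp hab.1) hab.2

lemma FS_le_FL {s p m : ℕ} : K.FS s p m ≤ (toBi K).FL (s + 1) p m :=
  K.FS_le fun _ _ ha hp => (toBi K).G_le_FL (Nat.lt_succ_iff.mpr ha) hp

lemma FL_eq_FS (s p m : ℕ) : (toBi K).FL (s + 1) p m = K.FS s p m :=
  le_antisymm (FL_le_FS K) (FS_le_FL K)

lemma pr_FL {s p m a : ℕ} (ha : s ≤ a) {x : F} (hx : x ∈ (toBi K).FL s p m) : K.pr a x = 0 := by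
  rcases s with _ | s
  · rw [Bi.FL_zero, Submodule.mem_bot] at hx
    rw [hx, map_zero]
  · exact K.pr_FS (by omega) (FL_le_FS K hx)

/-- exactness hypotheses -/
structure InpK (p : ℕ) : Prop where
  hA : ∀ a b m, 2 * e ≤ m → b + 3 + e ≤ 2 * m → K.ExA a b m
  hR : ∀ a b m, 2 * e ≤ m → b + 3 + e ≤ 2 * m → K.ExR a b m
  hS0 : ∀ a b m, a + (e + 1) ≤ m → K.ExS a b m
  hS : ∀ a b m, a < p → 2 * (e + 1) < m → K.ExS a b m

variable {K}

lemma c_of_rho {a b m : ℕ} {x : F} (hx : x ∈ K.G a b m) (h : K.rho x = 0) (hm : 1 ≤ m) :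
    ∃ z, x = K.c z := by
  obtain ⟨m, rfl⟩ : ∃ m', m = m' + 1 := ⟨m - 1, by omega⟩
  obtain ⟨y, _, h2⟩ := K.rho_dv hx h
  exact ⟨y, h2.symm⟩

/-- the input for the adapter -/
theorem InpK.toInp {p : ℕ} (H : InpK K p) : (toBi K).Inp p where
  hA := by
    intro a b κ h1 h2 ω hω hc
    obtain ⟨y, hy, hy'⟩ := H.hA a b (κ + e) (by omega) (by omega) ω hω hc
    rw [Nat.add_sub_cancel] at hy
    exact ⟨y, hy, hy'⟩
  hAQ := by
    rintro a b κ h1 h2 ω hω ⟨z, hz⟩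
    have hr : K.rho (K.dA (K.rho ω)) = 0 := by
      rw [K.rho_dA]
      exact (congrArg K.rho hz).trans (K.rho_c z)
    obtain ⟨y, hy, hyr, hy'⟩ := H.hR a b (κ + e) (by omega) (by omega) (K.rho ω) (K.rho_mem hω)
      (K.rho_rho ω) hr
    rw [Nat.add_sub_cancel] at hy
    refine ⟨y, hy, ?_⟩
    have h3 : K.rho (ω - K.dA y) = 0 := by rw [map_sub, hy', sub_self]
    rcases Nat.eq_zero_or_pos (κ + e) with h0 | h0
    · -- degree zero: impossible by the numerical hypotheses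
      exact absurd h2 (by omega)
    · obtain ⟨z', hz'⟩ := c_of_rho (sub_mem hω (K.dA_mem hy)) h3 h0
      exact ⟨z', (sub_eq_iff_eq_add'.mp hz')⟩
  hS0 := by
    rintro a b κ h1 ω hω ⟨z, hz⟩
    have hr : K.dS (K.rho ω) = 0 := by
      rw [← K.rho_dS]
      exact (congrArg K.rho hz).trans (K.rho_c z)
    obtain ⟨y, hy, hyr, hy'⟩ := H.hS0 a b (κ + (e + 1)) (by omega) (K.rho ω) (K.rho_mem hω)
      (K.rho_rho ω) hr
    rw [Nat.add_sub_cancel] at hy
    refine ⟨y, hy, ?_⟩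
    have h3 : K.rho (ω - K.dS y) = 0 := by rw [map_sub, K.rho_dS, hyr, hy', sub_self]
    obtain ⟨z', hz'⟩ := c_of_rho (sub_mem hω (K.dS_mem hy)) h3 (by omega)
    exact ⟨z', (sub_eq_iff_eq_add'.mp hz')⟩
  hS := by
    rintro a b κ h1 h2 ω hω ⟨z, hz⟩
    have hr : K.dS (K.rho ω) = 0 := by
      rw [← K.rho_dS]
      exact (congrArg K.rho hz).trans (K.rho_c z)
    obtain ⟨y, hy, hyr, hy'⟩ := H.hS a b (κ + (e + 1)) h1 (by omega) (K.rho ω) (K.rho_mem hω)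
      (K.rho_rho ω) hr
    rw [Nat.add_sub_cancel] at hy
    refine ⟨y, hy, ?_⟩
    have h3 : K.rho (ω - K.dS y) = 0 := by rw [map_sub, K.rho_dS, hyr, hy', sub_self]
    obtain ⟨z', hz'⟩ := c_of_rho (sub_mem hω (K.dS_mem hy)) h3 (by omega)
    exact ⟨z', (sub_eq_iff_eq_add'.mp hz')⟩

/-! ### components of cycles in `FS` -/

/-- the leading component of a cycle: it is closed for `dA`, and closed for `dS` modulo `c` -/
theorem top_cycle {s b m : ℕ} {y x : F} (hx : x ∈ K.G s b m)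
    (hy : y ∈ (toBi K).FL s (s + b) m) (h : K.D (x + y) = 0) :
    K.dA x = 0 ∧ K.dS x + K.D y = 0 ∧ K.dS (K.rho x) = 0 ∧ K.rho (K.dA (K.rho x)) = 0 := by
  obtain ⟨h1, h2⟩ := (toBi K).top_closed hx hy h
  obtain ⟨z, hz⟩ := (toBi K).top_closedS hx hy h
  refine ⟨h1, h2, ?_, ?_⟩
  · rw [← K.rho_dS]
    exact (congrArg K.rho hz).trans (K.rho_c z)
  · rw [K.rho_dA]
    exact (congrArg K.rho h1).trans (map_zero _)

/-- **Theorem 1** (`k = 0`): cycles with at most one letter outside `c A` are boundaries. -/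
theorem InpK.thm1 {p0 : ℕ} (H : InpK K p0) {p : ℕ} (hp : p ≤ 3 * e + 1) {x : F}
    (hx : x ∈ K.FS 1 p (2 * e + 2)) (hc : K.D x = 0) :
    ∃ y ∈ K.FS 2 (p + 1) (e + 1), K.D y = x := by
  obtain ⟨y, hy, h⟩ := H.toInp.thm1 hp (FS_le_FL K hx) hc
  exact ⟨y, FL_le_FS K hy, h⟩

/-- **Theorem 2 (a)**: a leading component divisible by `c` can be removed modulo boundaries. -/
theorem InpK.reduce {p0 : ℕ} (H : InpK K p0) {s b : ℕ} (hb : b + 1 ≤ 3 * e) {x : F}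
    (hx : x ∈ K.G (s + 1) b (2 * e + 2)) (hc : K.dA x = 0) (hr : K.rho x = 0) :
    ∃ w ∈ K.G (s + 1) (b + 1) (e + 1), ∃ y ∈ K.FS s (s + 1 + b) (2 * e + 2), x = K.D w + y := by
  obtain ⟨z, hz⟩ := c_of_rho hx hr (by omega)
  obtain ⟨w, hw, y, hy, h⟩ := H.toInp.reduce hb hx hc hz
  exact ⟨w, hw, y, FL_le_FS K hy, h⟩

/-- **Theorem 2 (b)**: `dS y`, `y` closed for `dA` modulo `c`, is modulo `c` the leading term of a
boundary. -/
theorem InpK.topbd {p0 : ℕ} (H : InpK K p0) {s b : ℕ} (hb : b + 2 ≤ 3 * e) {y : F}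
    (hy : y ∈ K.G (s + 1) b (e + 1)) (hc : K.rho (K.dA y) = 0) :
    ∃ y' ∈ K.G (s + 1) b (e + 1), K.dA y' = 0 ∧ K.D y' = K.dS y' ∧
      K.rho (K.dS y') = K.rho (K.dS y) ∧ K.rho y' = K.rho y := by
  have h0 : ∃ z, K.dA y = K.c z := by
    rcases b with _ | b
    · exact ⟨0, by rw [K.dA_zero hy, map_zero]⟩
    · exact c_of_rho (K.dA_mem hy) hc (by omega)
  obtain ⟨y', hy', h1, r, hr⟩ := (toBi K).lift' (a := s + 1) (b := b) (κ := e)
    (fun b' hb' => H.toInp.hA _ _ _ (by omega) (by omega)) hy h0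
  have h2 : K.rho y' = K.rho y := by
    rw [hr, map_add]
    exact (add_zero _).symm.trans (congrArg _ (K.rho_c r).symm)
  refine ⟨y', hy', h1, ?_, ?_, h2⟩
  · rw [K.D_apply]
    exact (congrArg (fun t => K.dS y' + K.c t) h1).trans (by rw [map_zero, add_zero])
  · rw [K.rho_dS, K.rho_dS, h2]

/-- **Lifting (L)**: every bi-cycle modulo `c` is the leading term modulo `c` of a cycle. -/
theorem InpK.lift {p : ℕ} (hp : p ≤ 3 * e) (H : InpK K p) {s b : ℕ} (hsb : s + b ≤ p) {y : F}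
    (hy : y ∈ K.G s b (2 * e + 2)) (hS : K.rho (K.dS y) = 0) (hA : K.rho (K.dA y) = 0) :
    ∃ x ∈ K.G s b (2 * e + 2), ∃ Ω ∈ (toBi K).FL s (s + b) (2 * e + 2),
      K.D (x + Ω) = 0 ∧ K.dA x = 0 ∧ K.rho x = K.rho y := by
  have h0 : ∃ z, K.dA y = K.c z := by
    rcases b with _ | b
    · exact ⟨0, by rw [K.dA_zero hy, map_zero]⟩
    · exact c_of_rho (K.dA_mem hy) hA (by omega)
  have h1 : ∃ z, K.dS y = K.c z := by
    rcases s with _ | s
    · exact ⟨0, by rw [K.dS_zero hy, map_zero]⟩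
    · exact c_of_rho (K.dS_mem hy) hS (by omega)
  obtain ⟨x, hx, Ω, hΩ, h2, h3, r, hr⟩ := Bi.Inp.lifting hp H.toInp hsb hy h0 h1
  refine ⟨x, hx, Ω, hΩ, h2, h3, ?_⟩
  rw [hr, map_add]
  exact (add_zero _).symm.trans (congrArg _ (K.rho_c r).symm)

/-- Lifting, in the form of helper80's plan. -/
theorem InpK.lift' {p : ℕ} (hp : p ≤ 3 * e) (H : InpK K p) {s b : ℕ} (hsb : s + b ≤ p) {y : F}
    (hy : y ∈ K.G s b (2 * e + 2)) (hr : K.rho y = y) (hS : K.dS y = 0)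
    (hA : K.rho (K.dA y) = 0) :
    ∃ Θ ∈ K.FS s (s + b) (2 * e + 2), K.D Θ = 0 ∧ K.rho (K.pr s Θ) = y := by
  obtain ⟨x, hx, Ω, hΩ, h2, _, h4⟩ := H.lift hp hsb hy (by rw [hS, map_zero]) hA
  refine ⟨x + Ω, add_mem (K.G_le_FS le_rfl rfl hx) (FL_le_FS K ((toBi K).FL_mono
    (Nat.le_succ s) hΩ)), h2, ?_⟩
  rw [map_add, K.pr_same hx, pr_FL K le_rfl hΩ, add_zero, h4, hr]

end Pool.Agent.H40.OP
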