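import Pool.Agent.H12.OP.TDefs

set_option autoImplicit false
set_option linter.unusedSectionVars false

/-!
# Full Ottaviani-Paoletti, part (T1): the spaces `V_j`

`V_0 = k`, `V_(j+1) = V_1 ⊗ V_j`, `V_1 = homogeneousSubmodule σ k (e - 1)` with the operators
`g ↦ X x * pderiv y g`; `κ (g ⊗ β) = S.Ee (X o ^ 2 * g) * κ β`.
-/

open MvPolynomial TensorProduct

namespace Pool.Agent.H40.OP

open Pool.Agent.H27.OP Pool.Agent.H80.OP Pool.Agent.H20.OPF Pool.Agent.H12.OP

variable {σ k F : Type} [Fintype σ] [Field k] [AddCommGroup F] [Module k F] {e : ℕ}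

/-! ### the operators `X x ∂_y` on forms -/

variable (σ k) in
/-- forms of degree `n` -/
abbrev V1 (n : ℕ) : Type := homogeneousSubmodule σ k n

lemma cpd_mem (x y : σ) {n : ℕ} {g : MvPolynomial σ k} (hg : g ∈ homogeneousSubmodule σ k n) :
    Fk.cpd (X x) y g ∈ homogeneousSubmodule σ k n := by
  rw [mem_homogeneousSubmodule] at hg ⊢
  rw [Fk.cpd_apply]
  exact Fk.hom_cpd (isHomogeneous_X _ _) y hg

/-- the operator `X x ∂_y` on forms of degree `n` -/
noncomputable def D1 (x y : σ) (n : ℕ) : Module.End k (V1 σ k n) :=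
  (Fk.cpd (X x) y).restrict (fun _ hg => cpd_mem x y hg)

lemma D1_coe (x y : σ) (n : ℕ) (g : V1 σ k n) :
    ((D1 x y n g : V1 σ k n) : MvPolynomial σ k) = X x * pderiv y (g : MvPolynomial σ k) := rfl

lemma D1_rel1 {o x : σ} (n : ℕ) :
    D1 (k := k) o x n * D1 x o n - D1 x o n * D1 o x n = D1 o o n - D1 x x n := by
  refine LinearMap.ext fun g => Subtype.ext ?_
  simp only [LinearMap.sub_apply, Module.End.mul_apply, Submodule.coe_sub, D1_coe]
  rw [Derivation.leibniz, Derivation.leibniz, pderiv_X_self, pderiv_X_self, smul_eq_mul,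
    smul_eq_mul, smul_eq_mul, smul_eq_mul, pderiv_pderiv_comm' o x]
  ring

lemma D1_rel2 {o x : σ} (hx : x ≠ o) (n : ℕ) :
    (D1 (k := k) o o n - D1 x x n) * D1 x o n - D1 x o n * (D1 o o n - D1 x x n)
      = -(2 : k) • D1 x o n := by
  refine LinearMap.ext fun g => Subtype.ext ?_
  simp only [LinearMap.sub_apply, Module.End.mul_apply, Submodule.coe_sub, D1_coe,
    LinearMap.smul_apply, Submodule.coe_smul, map_sub]
  simp only [Derivation.leibniz, pderiv_X_self, pderiv_X_of_ne hx, smul_eq_mul, mul_zero]
  rw [pderiv_pderiv_comm' o x, neg_smul, two_smul]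
  ring

lemma D1_nil {o x : σ} (hx : x ≠ o) (n : ℕ) : D1 (k := k) x o n ^ (n + 1) = 0 := by
  -- `(X x ∂_o)^N g = X x ^ N ∂_o^N g`
  have h1 : ∀ (N : ℕ) (g : V1 σ k n), ((D1 x o n ^ N) g : MvPolynomial σ k)
      = X x ^ N * ((pderiv o)^[N] (g : MvPolynomial σ k)) := by
    intro N
    induction N with
    | zero => intro g; simp
    | succ N ih =>
      intro g
      rw [pow_succ', Module.End.mul_apply, D1_coe, ih, Function.iterate_succ_apply',
        Derivation.leibniz, Derivation.leibniz_pow, pderiv_X_of_ne hx]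
      simp only [smul_zero, mul_zero, add_zero, smul_eq_mul]
      ring
  have h2 : ∀ (N : ℕ) (g : MvPolynomial σ k) (m : ℕ), g.IsHomogeneous m →
      ((pderiv o)^[N] g).IsHomogeneous (m - N) := by
    intro N
    induction N with
    | zero => intro g m hg; exact hg
    | succ N ih =>
      intro g m hg
      rw [Function.iterate_succ_apply']
      have := (ih g m hg).pderiv (i := o)
      rwa [Nat.sub_sub] at this
  refine LinearMap.ext fun g => Subtype.ext ?_
  rw [h1, Function.iterate_succ_apply', LinearMap.zero_apply, Submodule.coe_zero]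
  have h3 := h2 n g n ((mem_homogeneousSubmodule _ _).mp g.2)
  rw [Nat.sub_self] at h3
  have h4 := h3.totalDegree_le
  rw [Nat.le_zero, totalDegree_eq_zero_iff_eq_C] at h4
  rw [h4, pderiv_C, mul_zero]

/-! ### the structure `KV` -/

section

variable (S : Fk σ k (Module.End k F) (e + 1)) (o : σ)

/-- the case `j = 0` -/
noncomputable def KVzero : KV S o 0 where
  V := k
  κ := LinearMap.toSpanSingleton k (Module.End k F) 1
  DV _ _ := 0
  int x y _ β := by
    rw [LinearMap.toSpanSingleton_apply, LinearMap.zero_apply, map_zero, add_zero,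
      mul_smul_comm, smul_mul_assoc, one_mul, mul_one]
  into β := by
    rw [LinearMap.toSpanSingleton_apply, LinearMap.zero_apply, map_zero, add_zero,
      mul_smul_comm, smul_mul_assoc, one_mul, mul_one, Nat.mul_zero, Nat.cast_zero, zero_smul,
      add_zero]
  rel1 _ _ := by simp
  rel2 _ _ := by simp
  nil _ _ := ⟨1, by simp⟩
  span β := by
    rw [LinearMap.toSpanSingleton_apply]
    exact Submodule.smul_mem _ _ (Submodule.subset_span ⟨[], rfl, by simp, by simp⟩)
  surj L hL _ := by
    refine ⟨1, ?_⟩
    rw [LinearMap.toSpanSingleton_apply, one_smul, List.length_eq_zero_iff.mp hL]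
    simp

lemma Xsq_hom (he : 1 ≤ e) {g : MvPolynomial σ k} (hg : g.IsHomogeneous (e - 1)) :
    (X o ^ 2 * g).IsHomogeneous (e + 1) := by
  have := (isHomogeneous_X_pow (R := k) o 2).mul hg
  rwa [show 2 + (e - 1) = e + 1 by omega] at this

/-- `g ↦ E(X_o^2 g)` -/
noncomputable def Eo : V1 σ k (e - 1) →ₗ[k] Module.End k F :=
  S.Ee ∘ₗ (LinearMap.mulLeft k (X o ^ 2)) ∘ₗ (homogeneousSubmodule σ k (e - 1)).subtype

lemma Eo_apply (g : V1 σ k (e - 1)) : Eo S o g = S.Ee (X o ^ 2 * (g : MvPolynomial σ k)) := rfl

lemma D_Eo (he : 1 ≤ e) (x y : σ) (hy : y ≠ o) (g : V1 σ k (e - 1)) :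
    S.D (X x) y * Eo S o g = Eo S o g * S.D (X x) y + Eo S o (D1 x y (e - 1) g) := by
  rw [Eo_apply, Eo_apply, S.D_Ee y (Xsq_hom o he ((mem_homogeneousSubmodule _ _).mp g.2)), D1_coe]
  congr 2
  rw [Derivation.leibniz, Derivation.leibniz_pow, pderiv_X_of_ne (Ne.symm hy)]
  simp only [smul_eq_mul, mul_zero, smul_zero, add_zero]
  ring

lemma Do_Eo (he : 1 ≤ e) (g : V1 σ k (e - 1)) :
    S.D (X o) o * Eo S o g = Eo S o g * S.D (X o) o + Eo S o (D1 o o (e - 1) g)
      + (2 : k) • Eo S o g := by
  rw [Eo_apply, Eo_apply, S.D_Ee o (Xsq_hom o he ((mem_homogeneousSubmodule _ _).mp g.2)), D1_coe,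
    ← map_smul, add_assoc, ← map_add]
  congr 2
  rw [Derivation.leibniz, Derivation.leibniz_pow, pderiv_X_self, two_smul k, two_nsmul]
  simp only [smul_eq_mul]
  ring

/-- derivations of a tensor product -/
noncomputable def DT {V W : Type} [AddCommGroup V] [Module k V] [AddCommGroup W] [Module k W]
    (a : Module.End k V) (b : Module.End k W) : Module.End k (V ⊗[k] W) :=
  TensorProduct.map a LinearMap.id + TensorProduct.map LinearMap.id b

section DT

variable {V W : Type} [AddCommGroup V] [Module k V] [AddCommGroup W] [Module k W]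
  (a a' : Module.End k V) (b b' : Module.End k W)

lemma DT_tmul (v : V) (w : W) : DT a b (v ⊗ₜ w) = a v ⊗ₜ w + v ⊗ₜ b w := rfl

lemma DT_sub : DT a b - DT a' b' = DT (a - a') (b - b') := by
  refine TensorProduct.ext' fun v w => ?_
  rw [LinearMap.sub_apply, DT_tmul, DT_tmul, DT_tmul, LinearMap.sub_apply, LinearMap.sub_apply,
    TensorProduct.sub_tmul, TensorProduct.tmul_sub]
  abel

lemma DT_smul (t : k) : DT (t • a) (t • b) = t • DT a b := by
  refine TensorProduct.ext' fun v w => ?_
  rw [LinearMap.smul_apply, DT_tmul, DT_tmul, LinearMap.smul_apply, LinearMap.smul_apply,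
    smul_add, TensorProduct.smul_tmul', TensorProduct.tmul_smul]

lemma DT_comm : DT a b * DT a' b' - DT a' b' * DT a b = DT (a * a' - a' * a) (b * b' - b' * b) := by
  refine TensorProduct.ext' fun v w => ?_
  simp only [LinearMap.sub_apply, Module.End.mul_apply, DT_tmul, map_add, TensorProduct.sub_tmul,
    TensorProduct.tmul_sub]
  abel

end DT

/-- the step `j → j + 1` -/
noncomputable def KVsucc (he : 1 ≤ e) {j : ℕ} (Q : KV S o j) : KV S o (j + 1) where
  V := V1 σ k (e - 1) ⊗[k] Q.V
  κ := TensorProduct.lift ((LinearMap.mul k (Module.End k F)).compl₁₂ (Eo S o) Q.κ)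
  DV x y := DT (D1 x y (e - 1)) (Q.DV x y)
  int x y hy β := by
    induction β using TensorProduct.induction_on with
    | zero => simp
    | tmul g β =>
      have h1 := Q.int x y hy β
      have h2 := D_Eo S o he x y hy g
      simp only [DT_tmul, map_add,
        TensorProduct.lift.tmul, LinearMap.compl₁₂_apply, LinearMap.mul_apply']
      rw [← mul_assoc, h2, add_mul, mul_assoc, h1, mul_add, ← mul_assoc]
      abel
    | add a b ha hb =>
      rw [map_add, mul_add, ha, hb, map_add, map_add, add_mul]
      abel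
  into β := by
    induction β using TensorProduct.induction_on with
    | zero => simp
    | tmul g β =>
      have h1 := Q.into β
      have h2 := Do_Eo S o he g
      simp only [DT_tmul, map_add,
        TensorProduct.lift.tmul, LinearMap.compl₁₂_apply, LinearMap.mul_apply']
      rw [← mul_assoc, h2, add_mul, add_mul, mul_assoc, h1, mul_add, mul_add, ← mul_assoc,
        mul_smul_comm, smul_mul_assoc, Nat.mul_succ, Nat.cast_add, add_smul, Nat.cast_ofNat]
      abel
    | add a b ha hb =>
      rw [map_add, mul_add, ha, hb, map_add, map_add, add_mul, smul_add]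
      abel
  rel1 x hx := by
    rw [DT_comm, DT_sub, D1_rel1, Q.rel1 x hx]
  rel2 x hx := by
    rw [DT_sub, DT_comm, D1_rel2 hx, Q.rel2 x hx, DT_smul]
  nil x hx := by
    obtain ⟨N, hN⟩ := Q.nil x hx
    have h1 : IsNilpotent (TensorProduct.map (D1 (k := k) x o (e - 1)) (LinearMap.id : Q.V →ₗ[k] Q.V)) :=
      ⟨e - 1 + 1, by
        rw [TensorProduct.map_pow, D1_nil hx]
        exact TensorProduct.map_zero_left _⟩
    have h2 : IsNilpotent (TensorProduct.map (LinearMap.id : V1 σ k (e - 1) →ₗ[k] V1 σ k (e - 1))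
        (Q.DV x o)) := ⟨N, by
        rw [TensorProduct.map_pow, hN]
        exact TensorProduct.map_zero_right _⟩
    have h3 : Commute (TensorProduct.map (D1 (k := k) x o (e - 1)) (LinearMap.id : Q.V →ₗ[k] Q.V))
        (TensorProduct.map (LinearMap.id : V1 σ k (e - 1) →ₗ[k] V1 σ k (e - 1)) (Q.DV x o)) := by
      show _ * _ = _ * _
      rw [← TensorProduct.map_mul, ← TensorProduct.map_mul]
      rfl
    exact h3.isNilpotent_add h1 h2
  span β := by
    classical
    induction β using TensorProduct.induction_on with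
    | zero => rw [map_zero]; exact zero_mem _
    | tmul g β =>
      rw [TensorProduct.lift.tmul, LinearMap.compl₁₂_apply, LinearMap.mul_apply', Eo_apply,
        S.Ee_apply, Finset.sum_mul]
      refine Submodule.sum_mem _ fun μ hμ => ?_
      rw [smul_mul_assoc]
      by_cases h0 : coeff μ (X o ^ 2 * (g : MvPolynomial σ k)) = 0
      · rw [h0, zero_smul]; exact zero_mem _
      · have h2 : 2 ≤ μ o := by
          by_contra hlt
          apply h0
          rw [X_pow_eq_monomial, coeff_monomial_mul', if_neg]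
          intro hle
          have := hle o
          rw [Finsupp.single_eq_same] at this
          exact hlt this
        refine Submodule.smul_mem _ _ ?_
        refine Submodule.span_induction (p := fun T _ => S.E μ * T ∈ _) ?_ ?_ ?_ ?_ (Q.span β)
        · rintro _ ⟨L, hL, hL', rfl⟩
          refine Submodule.subset_span ⟨μ :: L, by rw [List.length_cons, hL], ?_, ?_⟩
          · intro ν hν
            rcases List.mem_cons.mp hν with h | h
            · rw [h]; exact ⟨hμ, h2⟩
            · exact hL' ν h
          · rw [List.map_cons, List.prod_cons]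
        · rw [mul_zero]; exact zero_mem _
        · intro u v _ _ hu hv
          rw [mul_add]; exact add_mem hu hv
        · intro t u _ hu
          rw [mul_smul_comm]; exact Submodule.smul_mem _ _ hu
    | add a b ha hb => rw [map_add]; exact add_mem ha hb
  surj L hL h := by
    rcases L with _ | ⟨μ, L⟩
    · exact absurd hL (by simp)
    · obtain ⟨β, hβ⟩ := Q.surj L (by simpa using hL)
        (fun ν hν => h ν (List.mem_cons_of_mem _ hν))
      obtain ⟨hμ, h2⟩ := h μ List.mem_cons_self
      have hdeg : (μ - Finsupp.single o 2).degree = e - 1 := by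
        have h3 : Finsupp.single o 2 + (μ - Finsupp.single o 2) = μ := by
          ext y
          by_cases hy : y = o
          · subst hy
            simp only [Finsupp.coe_add, Finsupp.coe_tsub, Pi.add_apply, Pi.sub_apply,
              Finsupp.single_eq_same]
            omega
          · simp [Finsupp.single_eq_of_ne hy]
        have h4 := congrArg Finsupp.degree h3
        rw [map_add, Finsupp.degree_single, mem_Mo.mp hμ] at h4
        omega
      refine ⟨(⟨monomial (μ - Finsupp.single o 2) 1, ?_⟩ : V1 σ k (e - 1)) ⊗ₜ β, ?_⟩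
      · rw [mem_homogeneousSubmodule]
        exact isHomogeneous_monomial _ hdeg
      · rw [TensorProduct.lift.tmul, LinearMap.compl₁₂_apply, LinearMap.mul_apply', Eo_apply, hβ,
          List.map_cons, List.prod_cons, ← mono_sub o h2, S.Ee_monomial hμ]

end

theorem exists_KV' (S : Fk σ k (Module.End k F) (e + 1)) (o : σ) (he : 1 ≤ e) (j : ℕ) :
    Nonempty (KV S o j) := by
  induction j with
  | zero => exact ⟨KVzero S o⟩
  | succ j ih =>
    obtain ⟨Q⟩ := ih
    exact ⟨KVsucc S o he Q⟩

end Pool.Agent.H40.OP
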